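import Pool.Agent.H586.AF.C

/-! Task AF-AI: the inverse of the Hessian. -/

set_option autoImplicit false
set_option linter.unusedVariables false

open MeasureTheory Matrix Finset Filter Topology
open scoped Quaternion

namespace Pool.Agent.H808.AF

open Pool.Agent.H586.AF

/-! ### abstract part -/

theorem trace_mul_nonneg {n : Type} [Fintype n] [DecidableEq n] {A B : Matrix n n ℝ}
    (hA : A.PosSemidef) (hB : B.PosSemidef) : 0 ≤ (A * B).trace := by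
  have h1 := (hA.hadamard hB).dotProduct_mulVec_nonneg (fun _ => (1 : ℝ))
  have h2 : star (fun _ : n => (1 : ℝ)) ⬝ᵥ ((A ⊙ B) *ᵥ fun _ => (1 : ℝ)) = (A * B).trace := by
    simp only [dotProduct, Matrix.mulVec, Matrix.trace, Matrix.diag, Matrix.mul_apply,
      Matrix.hadamard_apply, Pi.star_apply, star_one, one_mul, mul_one]
    refine Finset.sum_congr rfl fun i _ => Finset.sum_congr rfl fun j _ => ?_
    have h3 : B j i = B i j := by
      have := hB.isHermitian.apply i j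
      simpa using this
    rw [h3]
  rwa [h2] at h1

/-- the quadratic form -/
def qd {n : Type} [Fintype n] (A : Matrix n n ℝ) (f : n → ℝ) : ℝ := ∑ i, ∑ j, A i j * f i * f j

theorem qd_eq {n : Type} [Fintype n] (A : Matrix n n ℝ) (f : n → ℝ) :
    star f ⬝ᵥ (A *ᵥ f) = qd A f := by
  simp only [dotProduct, Matrix.mulVec, qd, Pi.star_apply, star_trivial, Finset.mul_sum]
  refine Finset.sum_congr rfl fun i _ => Finset.sum_congr rfl fun j _ => ?_
  ring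

theorem isHerm {n : Type} {A : Matrix n n ℝ} (h : A.IsSymm) : A.IsHermitian := by
  ext i j
  rw [Matrix.conjTranspose_apply, star_trivial]
  exact h.apply i j

theorem posDef_of {n : Type} [Fintype n] [DecidableEq n] {A : Matrix n n ℝ} (hA : A.IsSymm) {K : ℝ}
    (hK : 0 < K) (h : ∀ f : n → ℝ, ∑ i, f i ^ 2 ≤ K * qd A f) : A.PosDef := by
  refine Matrix.PosDef.of_dotProduct_mulVec_pos (isHerm hA) fun f hf => ?_
  rw [qd_eq]
  have h1 : 0 < ∑ i, f i ^ 2 := by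
    obtain ⟨i, hi⟩ := Function.ne_iff.1 hf
    refine Finset.sum_pos' (fun _ _ => sq_nonneg _) ⟨i, Finset.mem_univ _, ?_⟩
    have : f i ≠ 0 := hi
    positivity
  have h2 := h f
  by_contra h3
  push Not at h3
  have : K * qd A f ≤ 0 := mul_nonpos_of_nonneg_of_nonpos hK.le h3
  linarith

theorem posSemi_of {n : Type} [Fintype n] [DecidableEq n] {A : Matrix n n ℝ} (hA : A.IsSymm)
    (h : ∀ f : n → ℝ, 0 ≤ qd A f) : A.PosSemidef := by
  refine Matrix.PosSemidef.of_dotProduct_mulVec_nonneg (isHerm hA) fun f => ?_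
  rw [qd_eq]
  exact h f

theorem inv_le {n : Type} [Fintype n] [DecidableEq n] {A : Matrix n n ℝ} (hA : A.PosDef) {K : ℝ}
    (hK : 0 < K) (h : ∀ f : n → ℝ, ∑ i, f i ^ 2 ≤ K * qd A f) (i j : n) : |A⁻¹ i j| ≤ K := by
  have hdet : IsUnit A.det := (Matrix.isUnit_iff_isUnit_det A).1 hA.isUnit
  have hAA : A * A⁻¹ = 1 := Matrix.mul_nonsing_inv A hdet
  let y : n → ℝ := fun k => A⁻¹ k j
  have h1 : qd A y = y j := by
    rw [← qd_eq]
    have h2 : A *ᵥ y = fun k => (1 : Matrix n n ℝ) k j := by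
      funext k
      rw [← hAA, Matrix.mul_apply]
      rfl
    rw [h2]
    simp only [dotProduct, Pi.star_apply, star_trivial, Matrix.one_apply, mul_ite, mul_one,
      mul_zero, Finset.sum_ite_eq', Finset.mem_univ, if_true]
  have h2 := h y
  rw [h1] at h2
  have h3 : ∀ k, y k ^ 2 ≤ K * y j := fun k =>
    (Finset.single_le_sum (f := fun k => y k ^ 2) (fun _ _ => sq_nonneg _) (Finset.mem_univ k)).trans h2
  have h4 : y j ≤ K := by
    by_contra h5
    push Not at h5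
    have h6 := h3 j
    nlinarith
  have h5 : y i ^ 2 ≤ K ^ 2 := by
    have h6 := h3 i
    nlinarith
  exact abs_le_of_sq_le_sq h5 hK.le

/-! ### the one dimensional inequality -/

theorem one_dim (g : ℕ → ℝ) (h0 : g 0 = 0) (L : ℕ) :
    ∑ h ∈ Icc 1 L, g h ^ 2 ≤ (L : ℝ) ^ 2 * ∑ h ∈ range L, (g (h + 1) - g h) ^ 2 := by
  have h1 : ∀ h ∈ Icc 1 L, g h ^ 2 ≤ (L : ℝ) * ∑ k ∈ range L, (g (k + 1) - g k) ^ 2 := by
    intro h hh
    rw [Finset.mem_Icc] at hh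
    have e : g h = ∑ k ∈ range h, (g (k + 1) - g k) := by
      rw [Finset.sum_range_sub, h0, sub_zero]
    have h2 : g h ^ 2 ≤ (h : ℝ) * ∑ k ∈ range h, (g (k + 1) - g k) ^ 2 := by
      rw [e]
      have := sq_sum_le_card_mul_sum_sq (s := range h) (f := fun k => g (k + 1) - g k)
      rwa [Finset.card_range] at this
    have h3 : ∑ k ∈ range h, (g (k + 1) - g k) ^ 2 ≤ ∑ k ∈ range L, (g (k + 1) - g k) ^ 2 :=
      Finset.sum_le_sum_of_subset_of_nonneg (Finset.range_subset_range.2 hh.2)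
        fun _ _ _ => sq_nonneg _
    have h4 : (h : ℝ) ≤ L := by exact_mod_cast hh.2
    exact h2.trans (mul_le_mul h4 h3 (Finset.sum_nonneg fun _ _ => sq_nonneg _) (Nat.cast_nonneg _))
  refine (Finset.sum_le_sum h1).trans ?_
  rw [Finset.sum_const, Nat.card_Icc, Nat.add_sub_cancel, nsmul_eq_mul]
  apply le_of_eq
  ring

/-! ### sums over the links -/

theorem sum_Ico (L : ℕ) (g : ℕ → ℝ) : ∑ y ∈ Ico 1 L, g y = ∑ i : Fin (L - 1), g ((i : ℕ) + 1) := by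
  rw [Finset.sum_Ico_eq_sum_range, Finset.sum_range]
  exact Finset.sum_congr rfl fun i _ => by rw [Nat.add_comm]

theorem sum_Icc (L : ℕ) (g : ℕ → ℝ) : ∑ y ∈ Icc 1 L, g y = ∑ i : Fin L, g ((i : ℕ) + 1) := by
  have e : Icc 1 L = Ico 1 (L + 1) := by
    ext x
    simp only [Finset.mem_Icc, Finset.mem_Ico]
    omega
  rw [e, Finset.sum_Ico_eq_sum_range, Nat.add_sub_cancel, Finset.sum_range]
  exact Finset.sum_congr rfl fun i _ => by rw [Nat.add_comm]

theorem ex1_at {R : Type} (L : ℕ) (u : I1 L → R) (w : R) (a : Fin L) (b c : Fin (L - 1)) (d : Fin L) :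
    ex1 L u w a ((b : ℕ) + 1) ((c : ℕ) + 1) ((d : ℕ) + 1) = u (a, b, c, d) := by
  unfold ex1
  rw [dif_pos ⟨⟨a.2, by simp, by simp, by simp⟩, by omega, by omega,
    by omega⟩]
  rfl

theorem ex2_at {R : Type} (L : ℕ) (u : I2 L → R) (w : R) (a : Fin (L - 1)) (b : Fin L)
    (c : Fin (L - 1)) (d : Fin L) :
    ex2 L u w ((a : ℕ) + 1) (b : ℕ) ((c : ℕ) + 1) ((d : ℕ) + 1) = u (a, b, c, d) := by
  unfold ex2
  rw [dif_pos ⟨⟨by simp, b.2, by simp, by simp⟩, by omega, by omega,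
    by omega⟩]
  rfl

theorem ex3_at {R : Type} (L : ℕ) (u : I3 L → R) (w : R) (a b : Fin (L - 1)) (c : Fin L) (d : Fin L) :
    ex3 L u w ((a : ℕ) + 1) ((b : ℕ) + 1) (c : ℕ) ((d : ℕ) + 1) = u (a, b, c, d) := by
  unfold ex3
  rw [dif_pos ⟨⟨by simp, by simp, c.2, by simp⟩, by omega, by omega,
    by omega⟩]
  rfl

theorem sum1 (L : ℕ) (u : I1 L → ℝ) : ∑ i, u i ^ 2 =
    ∑ x ∈ range L, ∑ y ∈ Ico 1 L, ∑ z ∈ Ico 1 L, ∑ h ∈ Icc 1 L, ex1 L u 0 x y z h ^ 2 := by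
  rw [Fintype.sum_prod_type, Finset.sum_range]
  refine Finset.sum_congr rfl fun a _ => ?_
  rw [Fintype.sum_prod_type, sum_Ico]
  refine Finset.sum_congr rfl fun b _ => ?_
  rw [Fintype.sum_prod_type, sum_Ico]
  refine Finset.sum_congr rfl fun c _ => ?_
  rw [sum_Icc]
  refine Finset.sum_congr rfl fun d _ => ?_
  rw [ex1_at]

theorem sum2 (L : ℕ) (u : I2 L → ℝ) : ∑ i, u i ^ 2 =
    ∑ x ∈ Ico 1 L, ∑ y ∈ range L, ∑ z ∈ Ico 1 L, ∑ h ∈ Icc 1 L, ex2 L u 0 x y z h ^ 2 := by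
  rw [Fintype.sum_prod_type, sum_Ico]
  refine Finset.sum_congr rfl fun a _ => ?_
  rw [Fintype.sum_prod_type, Finset.sum_range]
  refine Finset.sum_congr rfl fun b _ => ?_
  rw [Fintype.sum_prod_type, sum_Ico]
  refine Finset.sum_congr rfl fun c _ => ?_
  rw [sum_Icc]
  refine Finset.sum_congr rfl fun d _ => ?_
  rw [ex2_at]

theorem sum3 (L : ℕ) (u : I3 L → ℝ) : ∑ i, u i ^ 2 =
    ∑ x ∈ Ico 1 L, ∑ y ∈ Ico 1 L, ∑ z ∈ range L, ∑ h ∈ Icc 1 L, ex3 L u 0 x y z h ^ 2 := by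
  rw [Fintype.sum_prod_type, sum_Ico]
  refine Finset.sum_congr rfl fun a _ => ?_
  rw [Fintype.sum_prod_type, sum_Ico]
  refine Finset.sum_congr rfl fun b _ => ?_
  rw [Fintype.sum_prod_type, Finset.sum_range]
  refine Finset.sum_congr rfl fun c _ => ?_
  rw [sum_Icc]
  refine Finset.sum_congr rfl fun d _ => ?_
  rw [ex3_at]

theorem ex1_zero {R : Type} (L : ℕ) (u : I1 L → R) (w : R) (x y z : ℕ) : ex1 L u w x y z 0 = w := by
  unfold ex1
  rw [dif_neg (by omega)]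

theorem ex2_zero {R : Type} (L : ℕ) (u : I2 L → R) (w : R) (x y z : ℕ) : ex2 L u w x y z 0 = w := by
  unfold ex2
  rw [dif_neg (by omega)]

theorem ex3_zero {R : Type} (L : ℕ) (u : I3 L → R) (w : R) (x y z : ℕ) : ex3 L u w x y z 0 = w := by
  unfold ex3
  rw [dif_neg (by omega)]

theorem vert1 (L : ℕ) (u : I1 L → ℝ) : ∑ i, u i ^ 2 ≤ (L : ℝ) ^ 2 *
    s14 L (fun x y z h => (ex1 L u 0 x y z (h + 1) - ex1 L u 0 x y z h) ^ 2) := by
  rw [sum1]
  unfold s14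
  simp only [Finset.mul_sum]
  refine Finset.sum_le_sum fun x _ => Finset.sum_le_sum fun y _ => Finset.sum_le_sum fun z _ => ?_
  rw [← Finset.mul_sum]
  exact one_dim (fun h => ex1 L u 0 x y z h) (ex1_zero L u 0 x y z) L

theorem vert2 (L : ℕ) (u : I2 L → ℝ) : ∑ i, u i ^ 2 ≤ (L : ℝ) ^ 2 *
    s24 L (fun x y z h => (ex2 L u 0 x y z (h + 1) - ex2 L u 0 x y z h) ^ 2) := by
  rw [sum2]
  unfold s24
  simp only [Finset.mul_sum]
  refine Finset.sum_le_sum fun x _ => Finset.sum_le_sum fun y _ => Finset.sum_le_sum fun z _ => ?_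
  rw [← Finset.mul_sum]
  exact one_dim (fun h => ex2 L u 0 x y z h) (ex2_zero L u 0 x y z) L

theorem vert3 (L : ℕ) (u : I3 L → ℝ) : ∑ i, u i ^ 2 ≤ (L : ℝ) ^ 2 *
    s34 L (fun x y z h => (ex3 L u 0 x y z (h + 1) - ex3 L u 0 x y z h) ^ 2) := by
  rw [sum3]
  unfold s34
  simp only [Finset.mul_sum]
  refine Finset.sum_le_sum fun x _ => Finset.sum_le_sum fun y _ => Finset.sum_le_sum fun z _ => ?_
  rw [← Finset.mul_sum]
  exact one_dim (fun h => ex3 L u 0 x y z h) (ex3_zero L u 0 x y z) L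

/-! ### real fields -/

theorem ex1_real (L : ℕ) (u : I1 L → ℝ) (x y z h : ℕ) :
    ex1 L (fun i => ((u i : ℝ) : ℂ)) 0 x y z h = ((ex1 L u 0 x y z h : ℝ) : ℂ) := by
  unfold ex1
  split_ifs <;> simp

theorem ex2_real (L : ℕ) (u : I2 L → ℝ) (x y z h : ℕ) :
    ex2 L (fun i => ((u i : ℝ) : ℂ)) 0 x y z h = ((ex2 L u 0 x y z h : ℝ) : ℂ) := by
  unfold ex2
  split_ifs <;> simp

theorem ex3_real (L : ℕ) (u : I3 L → ℝ) (x y z h : ℕ) :
    ex3 L (fun i => ((u i : ℝ) : ℂ)) 0 x y z h = ((ex3 L u 0 x y z h : ℝ) : ℂ) := by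
  unfold ex3
  split_ifs <;> simp

theorem ee_zero (x : ℝ) : ee 0 x = 1 := by
  unfold ee
  simp

theorem q12_real (x a b c d : ℝ) :
    q12 0 x (a : ℂ) (b : ℂ) (c : ℂ) (d : ℂ) = (1 / 2) * (a + b - c - d) ^ 2 := by
  unfold q12
  simp only [ee_zero, Complex.norm_real, Real.norm_eq_abs, sq_abs]
  simp
  ring

theorem s12_nonneg (L : ℕ) (F : ℕ → ℕ → ℕ → ℕ → ℝ) (h : ∀ x y z w, 0 ≤ F x y z w) : 0 ≤ s12 L F :=
  Finset.sum_nonneg fun _ _ => Finset.sum_nonneg fun _ _ => Finset.sum_nonneg fun _ _ =>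
    Finset.sum_nonneg fun _ _ => h _ _ _ _
theorem s13_nonneg (L : ℕ) (F : ℕ → ℕ → ℕ → ℕ → ℝ) (h : ∀ x y z w, 0 ≤ F x y z w) : 0 ≤ s13 L F :=
  Finset.sum_nonneg fun _ _ => Finset.sum_nonneg fun _ _ => Finset.sum_nonneg fun _ _ =>
    Finset.sum_nonneg fun _ _ => h _ _ _ _
theorem s23_nonneg (L : ℕ) (F : ℕ → ℕ → ℕ → ℕ → ℝ) (h : ∀ x y z w, 0 ≤ F x y z w) : 0 ≤ s23 L F :=
  Finset.sum_nonneg fun _ _ => Finset.sum_nonneg fun _ _ => Finset.sum_nonneg fun _ _ =>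
    Finset.sum_nonneg fun _ _ => h _ _ _ _
theorem s14_nonneg (L : ℕ) (F : ℕ → ℕ → ℕ → ℕ → ℝ) (h : ∀ x y z w, 0 ≤ F x y z w) : 0 ≤ s14 L F :=
  Finset.sum_nonneg fun _ _ => Finset.sum_nonneg fun _ _ => Finset.sum_nonneg fun _ _ =>
    Finset.sum_nonneg fun _ _ => h _ _ _ _
theorem s24_nonneg (L : ℕ) (F : ℕ → ℕ → ℕ → ℕ → ℝ) (h : ∀ x y z w, 0 ≤ F x y z w) : 0 ≤ s24 L F :=
  Finset.sum_nonneg fun _ _ => Finset.sum_nonneg fun _ _ => Finset.sum_nonneg fun _ _ =>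
    Finset.sum_nonneg fun _ _ => h _ _ _ _
theorem s34_nonneg (L : ℕ) (F : ℕ → ℕ → ℕ → ℕ → ℝ) (h : ∀ x y z w, 0 ≤ F x y z w) : 0 ≤ s34 L F :=
  Finset.sum_nonneg fun _ _ => Finset.sum_nonneg fun _ _ => Finset.sum_nonneg fun _ _ =>
    Finset.sum_nonneg fun _ _ => h _ _ _ _

theorem s12_mul (L : ℕ) (c : ℝ) (F : ℕ → ℕ → ℕ → ℕ → ℝ) :
    s12 L (fun x y z h => c * F x y z h) = c * s12 L F := by
  simp only [s12, Finset.mul_sum]
theorem s14_mul (L : ℕ) (c : ℝ) (F : ℕ → ℕ → ℕ → ℕ → ℝ) :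
    s14 L (fun x y z h => c * F x y z h) = c * s14 L F := by
  simp only [s14, Finset.mul_sum]
theorem s24_mul (L : ℕ) (c : ℝ) (F : ℕ → ℕ → ℕ → ℕ → ℝ) :
    s24 L (fun x y z h => c * F x y z h) = c * s24 L F := by
  simp only [s24, Finset.mul_sum]
theorem s34_mul (L : ℕ) (c : ℝ) (F : ℕ → ℕ → ℕ → ℕ → ℝ) :
    s34 L (fun x y z h => c * F x y z h) = c * s34 L F := by
  simp only [s34, Finset.mul_sum]

/-- the vertical part of the quadratic form -/
noncomputable def vp {L : ℕ} (f : IH L → ℝ) : ℝ :=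
  s14 L (fun x y z h => (ex1 L (fun i => f (Sum.inl i)) 0 x y z (h + 1) -
    ex1 L (fun i => f (Sum.inl i)) 0 x y z h) ^ 2) +
  s24 L (fun x y z h => (ex2 L (fun i => f (Sum.inr (Sum.inl i))) 0 x y z (h + 1) -
    ex2 L (fun i => f (Sum.inr (Sum.inl i))) 0 x y z h) ^ 2) +
  s34 L (fun x y z h => (ex3 L (fun i => f (Sum.inr (Sum.inr i))) 0 x y z (h + 1) -
    ex3 L (fun i => f (Sum.inr (Sum.inr i))) 0 x y z h) ^ 2)

theorem vp_ge {L : ℕ} (f : IH L → ℝ) : ∑ i, f i ^ 2 ≤ (L : ℝ) ^ 2 * vp f := by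
  rw [Fintype.sum_sum_type, Fintype.sum_sum_type]
  have h1 := vert1 L fun i => f (Sum.inl i)
  have h2 := vert2 L fun i => f (Sum.inr (Sum.inl i))
  have h3 := vert3 L fun i => f (Sum.inr (Sum.inr i))
  unfold vp
  linarith

theorem vp_nonneg {L : ℕ} (f : IH L → ℝ) : 0 ≤ vp f := by
  unfold vp
  have h1 := s14_nonneg L (fun x y z h => (ex1 L (fun i => f (Sum.inl i)) 0 x y z (h + 1) -
    ex1 L (fun i => f (Sum.inl i)) 0 x y z h) ^ 2) fun _ _ _ _ => sq_nonneg _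
  have h2 := s24_nonneg L (fun x y z h => (ex2 L (fun i => f (Sum.inr (Sum.inl i))) 0 x y z (h + 1) -
    ex2 L (fun i => f (Sum.inr (Sum.inl i))) 0 x y z h) ^ 2) fun _ _ _ _ => sq_nonneg _
  have h3 := s34_nonneg L (fun x y z h => (ex3 L (fun i => f (Sum.inr (Sum.inr i))) 0 x y z (h + 1) -
    ex3 L (fun i => f (Sum.inr (Sum.inr i))) 0 x y z h) ^ 2) fun _ _ _ _ => sq_nonneg _
  linarith

theorem qf_ge {L : ℕ} (f : IH L → ℝ) :
    (1 / 2) * s12 L (fun x y z h => c12 f x y z h ^ 2) + (1 / 2) * vp f ≤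
      qf L 0 (fun i => ((f i : ℝ) : ℂ)) := by
  unfold qf
  simp only [ex1_real, ex2_real, ex3_real, q12_real]
  have e1 : ∀ a b : ℝ, ‖((a : ℝ) : ℂ) - ((b : ℝ) : ℂ)‖ ^ 2 = (a - b) ^ 2 := fun a b => by
    rw [← Complex.ofReal_sub, Complex.norm_real, Real.norm_eq_abs, sq_abs]
  simp only [e1, s12_mul, s14_mul, s24_mul, s34_mul]
  unfold vp c12
  have h1 := s13_nonneg L (fun x y z h => (1 / 2) *
    ‖((ex1 L (fun i => f (Sum.inl i)) 0 x y z h : ℝ) : ℂ) +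
      ((ex3 L (fun i => f (Sum.inr (Sum.inr i))) 0 (x + 1) y z h : ℝ) : ℂ) -
      ((ex1 L (fun i => f (Sum.inl i)) 0 x y (z + 1) h : ℝ) : ℂ) -
      ((ex3 L (fun i => f (Sum.inr (Sum.inr i))) 0 x y z h : ℝ) : ℂ)‖ ^ 2) fun _ _ _ _ => by positivity
  have h2 := s23_nonneg L (fun x y z h => q23 0 x
      ((ex2 L (fun i => f (Sum.inr (Sum.inl i))) 0 x y z h : ℝ) : ℂ)
      ((ex3 L (fun i => f (Sum.inr (Sum.inr i))) 0 x (y + 1) z h : ℝ) : ℂ)
      ((ex2 L (fun i => f (Sum.inr (Sum.inl i))) 0 x y (z + 1) h : ℝ) : ℂ)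
      ((ex3 L (fun i => f (Sum.inr (Sum.inr i))) 0 x y z h : ℝ) : ℂ)) fun _ _ _ _ => by
        unfold q23
        positivity
  linarith

/-! ### the form of the plane 12 -/

theorem lin_pt {L : ℕ} (f : IH L → ℝ) (k : IH L) :
    f k = ∑ i, f i * (Pi.single i 1 : IH L → ℝ) k := by
  simp only [Pi.single_apply, mul_ite, mul_one, mul_zero, Finset.sum_ite_eq, Finset.mem_univ, if_true]

theorem ex1_lin {L : ℕ} (f : IH L → ℝ) (x y z h : ℕ) :
    ex1 L (fun k => f (Sum.inl k)) 0 x y z h =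
      ∑ i, f i * ex1 L (fun k => (Pi.single i 1 : IH L → ℝ) (Sum.inl k)) 0 x y z h := by
  unfold ex1
  split_ifs
  · exact lin_pt f _
  · simp

theorem ex2_lin {L : ℕ} (f : IH L → ℝ) (x y z h : ℕ) :
    ex2 L (fun k => f (Sum.inr (Sum.inl k))) 0 x y z h =
      ∑ i, f i * ex2 L (fun k => (Pi.single i 1 : IH L → ℝ) (Sum.inr (Sum.inl k))) 0 x y z h := by
  unfold ex2
  split_ifs
  · exact lin_pt f _
  · simp

theorem c12_lin {L : ℕ} (f : IH L → ℝ) (x y z h : ℕ) :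
    c12 f x y z h = ∑ i, f i * c12 (Pi.single i 1) x y z h := by
  unfold c12
  rw [ex1_lin f x y z h, ex2_lin f (x + 1) y z h, ex1_lin f x (y + 1) z h, ex2_lin f x y z h,
    ← Finset.sum_add_distrib, ← Finset.sum_sub_distrib, ← Finset.sum_sub_distrib]
  exact Finset.sum_congr rfl fun i _ => by ring

/-- `s12` as one sum -/
theorem s12_eq (L : ℕ) (F : ℕ → ℕ → ℕ → ℕ → ℝ) : s12 L F =
    ∑ p ∈ range L ×ˢ range L ×ˢ Ico 1 L ×ˢ Icc 1 L, F p.1 p.2.1 p.2.2.1 p.2.2.2 := by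
  unfold s12
  rw [Finset.sum_product]
  refine Finset.sum_congr rfl fun x _ => ?_
  rw [Finset.sum_product]
  refine Finset.sum_congr rfl fun y _ => ?_
  rw [Finset.sum_product]

theorem qd_mR {L : ℕ} (f : IH L → ℝ) : s12 L (fun x y z h => c12 f x y z h ^ 2) = qd (mR L) f := by
  have e : ∀ i j, mR L i j = ∑ p ∈ range L ×ˢ range L ×ˢ Ico 1 L ×ˢ Icc 1 L,
      c12 (Pi.single i 1) p.1 p.2.1 p.2.2.1 p.2.2.2 * c12 (Pi.single j 1) p.1 p.2.1 p.2.2.1 p.2.2.2 :=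
    fun i j => by
      unfold mR
      rw [Matrix.of_apply, s12_eq]
  unfold qd
  rw [s12_eq]
  simp only [e, Finset.sum_mul]
  have e2 : ∀ i : IH L, ∑ j, ∑ p ∈ range L ×ˢ range L ×ˢ Ico 1 L ×ˢ Icc 1 L,
      c12 (Pi.single i 1) p.1 p.2.1 p.2.2.1 p.2.2.2 * c12 (Pi.single j 1) p.1 p.2.1 p.2.2.1 p.2.2.2 *
        f i * f j = ∑ p ∈ range L ×ˢ range L ×ˢ Ico 1 L ×ˢ Icc 1 L, ∑ j,
      c12 (Pi.single i 1) p.1 p.2.1 p.2.2.1 p.2.2.2 * c12 (Pi.single j 1) p.1 p.2.1 p.2.2.1 p.2.2.2 *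
        f i * f j := fun i => Finset.sum_comm
  simp only [e2]
  rw [Finset.sum_comm]
  refine Finset.sum_congr rfl fun p _ => ?_
  rw [c12_lin f, sq, Finset.sum_mul_sum]
  exact Finset.sum_congr rfl fun i _ => Finset.sum_congr rfl fun j _ => by ring

theorem mR_symm (L : ℕ) : (mR L).IsSymm := by
  ext i j
  rw [Matrix.transpose_apply]
  unfold mR
  rw [Matrix.of_apply, Matrix.of_apply]
  congr 1
  funext x y z h
  ring

/-- the sum of the indicator function of a point -/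
theorem ind_le (L : ℕ) (a b c d : ℕ) :
    s12 L (fun x y z h => if x = a ∧ y = b ∧ z = c ∧ h = d then (1 : ℝ) else 0) ≤ 1 := by
  rw [s12_eq]
  have e : ∀ p : ℕ × ℕ × ℕ × ℕ, (if p.1 = a ∧ p.2.1 = b ∧ p.2.2.1 = c ∧ p.2.2.2 = d then (1 : ℝ) else 0)
      = if p = (a, b, c, d) then 1 else 0 := by
    intro p
    congr 1
    rw [eq_iff_iff]
    constructor
    · rintro ⟨h1, h2, h3, h4⟩
      obtain ⟨x, y, z, h⟩ := p
      simp only at h1 h2 h3 h4
      rw [h1, h2, h3, h4]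
    · rintro rfl
      exact ⟨rfl, rfl, rfl, rfl⟩
  simp only [e]
  rw [Finset.sum_ite_eq']
  split_ifs <;> norm_num

theorem s12_mono (L : ℕ) {F G : ℕ → ℕ → ℕ → ℕ → ℝ} (h : ∀ x y z w, F x y z w ≤ G x y z w) :
    s12 L F ≤ s12 L G :=
  Finset.sum_le_sum fun _ _ => Finset.sum_le_sum fun _ _ => Finset.sum_le_sum fun _ _ =>
    Finset.sum_le_sum fun _ _ => h _ _ _ _

theorem s12_add (L : ℕ) (F G : ℕ → ℕ → ℕ → ℕ → ℝ) :
    s12 L (fun x y z h => F x y z h + G x y z h) = s12 L F + s12 L G := by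
  simp only [s12, Finset.sum_add_distrib]

theorem ex1_single {L : ℕ} (i : I1 L) (x y z h : ℕ) :
    ex1 L (fun k => (Pi.single (Sum.inl i) 1 : IH L → ℝ) (Sum.inl k)) 0 x y z h ^ 2 ≤
      if x = i.1 ∧ y = i.2.1 + 1 ∧ z = i.2.2.1 + 1 ∧ h = i.2.2.2 + 1 then (1 : ℝ) else 0 := by
  unfold ex1
  split_ifs with h1 h2 h2
  · beta_reduce
    rw [Pi.single_apply]
    split_ifs <;> norm_num
  · beta_reduce
    rw [Pi.single_apply, if_neg]
    · norm_num
    · intro h3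
      have h4 := Sum.inl_injective h3
      apply h2
      have g1 : x = i.1 := congrArg (fun k : I1 L => (k.1 : ℕ)) h4
      have g2 : y - 1 = i.2.1 := congrArg (fun k : I1 L => (k.2.1 : ℕ)) h4
      have g3 : z - 1 = i.2.2.1 := congrArg (fun k : I1 L => (k.2.2.1 : ℕ)) h4
      have g4 : h - 1 = i.2.2.2 := congrArg (fun k : I1 L => (k.2.2.2 : ℕ)) h4
      refine ⟨g1, ?_, ?_, ?_⟩ <;> omega
  · norm_num
  · norm_num

theorem ex2_single {L : ℕ} (i : I2 L) (x y z h : ℕ) :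
    ex2 L (fun k => (Pi.single (Sum.inr (Sum.inl i)) 1 : IH L → ℝ) (Sum.inr (Sum.inl k))) 0 x y z h ^ 2 ≤
      if x = i.1 + 1 ∧ y = i.2.1 ∧ z = i.2.2.1 + 1 ∧ h = i.2.2.2 + 1 then (1 : ℝ) else 0 := by
  unfold ex2
  split_ifs with h1 h2 h2
  · beta_reduce
    rw [Pi.single_apply]
    split_ifs <;> norm_num
  · beta_reduce
    rw [Pi.single_apply, if_neg]
    · norm_num
    · intro h3
      have h4 := Sum.inl_injective (Sum.inr_injective h3)
      apply h2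
      have g1 : x - 1 = i.1 := congrArg (fun k : I2 L => (k.1 : ℕ)) h4
      have g2 : y = i.2.1 := congrArg (fun k : I2 L => (k.2.1 : ℕ)) h4
      have g3 : z - 1 = i.2.2.1 := congrArg (fun k : I2 L => (k.2.2.1 : ℕ)) h4
      have g4 : h - 1 = i.2.2.2 := congrArg (fun k : I2 L => (k.2.2.2 : ℕ)) h4
      refine ⟨?_, g2, ?_, ?_⟩ <;> omega
  · norm_num
  · norm_num

theorem ex1_none {L : ℕ} (i : IH L) (hi : ∀ k, (Sum.inl k : IH L) ≠ i) (x y z h : ℕ) :
    ex1 L (fun k => (Pi.single i 1 : IH L → ℝ) (Sum.inl k)) 0 x y z h = 0 := by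
  unfold ex1
  split_ifs
  · beta_reduce
    rw [Pi.single_apply, if_neg (hi _)]
  · rfl

theorem ex2_none {L : ℕ} (i : IH L) (hi : ∀ k, (Sum.inr (Sum.inl k) : IH L) ≠ i) (x y z h : ℕ) :
    ex2 L (fun k => (Pi.single i 1 : IH L → ℝ) (Sum.inr (Sum.inl k))) 0 x y z h = 0 := by
  unfold ex2
  split_ifs
  · beta_reduce
    rw [Pi.single_apply, if_neg (hi _)]
  · rfl

theorem two_le {L : ℕ} (F G : ℕ → ℕ → ℕ → ℕ → ℝ) (a b c d a' b' c' d' : ℕ)
    (hF : ∀ x y z h, F x y z h ^ 2 ≤ if x = a ∧ y = b ∧ z = c ∧ h = d then (1 : ℝ) else 0)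
    (hG : ∀ x y z h, G x y z h ^ 2 ≤ if x = a' ∧ y = b' ∧ z = c' ∧ h = d' then (1 : ℝ) else 0) :
    s12 L (fun x y z h => (F x y z h - G x y z h) ^ 2) ≤ 4 := by
  have h1 : s12 L (fun x y z h => (F x y z h - G x y z h) ^ 2) ≤
      s12 L (fun x y z h => 2 * (if x = a ∧ y = b ∧ z = c ∧ h = d then (1 : ℝ) else 0) +
        2 * (if x = a' ∧ y = b' ∧ z = c' ∧ h = d' then (1 : ℝ) else 0)) := by
    refine s12_mono L fun x y z h => ?_
    have h2 := hF x y z h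
    have h3 := hG x y z h
    have h4 : (F x y z h - G x y z h) ^ 2 ≤ 2 * F x y z h ^ 2 + 2 * G x y z h ^ 2 := by
      nlinarith [sq_nonneg (F x y z h + G x y z h)]
    linarith
  rw [s12_add, s12_mul, s12_mul] at h1
  have h2 := ind_le L a b c d
  have h3 := ind_le L a' b' c' d'
  linarith

theorem diag_le {L : ℕ} (i : IH L) :
    s12 L (fun x y z h => c12 (Pi.single i 1 : IH L → ℝ) x y z h ^ 2) ≤ 4 := by
  rcases i with i | i | i
  · have e : (fun x y z h => c12 (Pi.single (Sum.inl i) 1 : IH L → ℝ) x y z h ^ 2) =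
      fun x y z h => (ex1 L (fun k => (Pi.single (Sum.inl i) 1 : IH L → ℝ) (Sum.inl k)) 0 x y z h -
        ex1 L (fun k => (Pi.single (Sum.inl i) 1 : IH L → ℝ) (Sum.inl k)) 0 x (y + 1) z h) ^ 2 := by
      funext x y z h
      unfold c12
      rw [ex2_none (Sum.inl i) (fun k => by simp), ex2_none (Sum.inl i) (fun k => by simp)]
      ring
    rw [e]
    refine two_le _ _ i.1 (i.2.1 + 1) (i.2.2.1 + 1) (i.2.2.2 + 1) i.1 i.2.1 (i.2.2.1 + 1)
      (i.2.2.2 + 1) (fun x y z h => ex1_single i x y z h) fun x y z h => ?_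
    have h1 := ex1_single i x (y + 1) z h
    simpa using h1
  · have e : (fun x y z h => c12 (Pi.single (Sum.inr (Sum.inl i)) 1 : IH L → ℝ) x y z h ^ 2) =
      fun x y z h =>
        (ex2 L (fun k => (Pi.single (Sum.inr (Sum.inl i)) 1 : IH L → ℝ) (Sum.inr (Sum.inl k))) 0
            (x + 1) y z h -
          ex2 L (fun k => (Pi.single (Sum.inr (Sum.inl i)) 1 : IH L → ℝ) (Sum.inr (Sum.inl k))) 0
            x y z h) ^ 2 := by
      funext x y z h
      unfold c12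
      rw [ex1_none (Sum.inr (Sum.inl i)) (fun k => by simp),
        ex1_none (Sum.inr (Sum.inl i)) (fun k => by simp)]
      ring
    rw [e]
    refine two_le _ _ i.1 i.2.1 (i.2.2.1 + 1) (i.2.2.2 + 1) (i.1 + 1) i.2.1 (i.2.2.1 + 1)
      (i.2.2.2 + 1) (fun x y z h => ?_) fun x y z h => ex2_single i x y z h
    have h1 := ex2_single i (x + 1) y z h
    simpa using h1
  · have e : (fun x y z h => c12 (Pi.single (Sum.inr (Sum.inr i)) 1 : IH L → ℝ) x y z h ^ 2) =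
      fun x y z h => (0 : ℝ) := by
      funext x y z h
      unfold c12
      rw [ex1_none _ (fun k => by simp), ex1_none _ (fun k => by simp),
        ex2_none _ (fun k => by simp), ex2_none _ (fun k => by simp)]
      ring
    rw [e]
    simp [s12]

theorem mR_le {L : ℕ} (i j : IH L) : |mR L i j| ≤ 4 := by
  have h1 : ∀ σ : ℝ, σ = 1 ∨ σ = -1 → σ * mR L i j ≤ 4 := by
    intro σ hσ
    have hs : σ ^ 2 = 1 := by rcases hσ with rfl | rfl <;> norm_num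
    unfold mR
    rw [Matrix.of_apply, ← s12_mul]
    have h2 : s12 L (fun x y z h => σ * (c12 (Pi.single i 1 : IH L → ℝ) x y z h *
        c12 (Pi.single j 1 : IH L → ℝ) x y z h)) ≤
        s12 L (fun x y z h => (1 / 2) * c12 (Pi.single i 1 : IH L → ℝ) x y z h ^ 2 +
          (1 / 2) * c12 (Pi.single j 1 : IH L → ℝ) x y z h ^ 2) := by
      refine s12_mono L fun x y z h => ?_
      have h3 := sq_nonneg (c12 (Pi.single i 1 : IH L → ℝ) x y z h -
        σ * c12 (Pi.single j 1 : IH L → ℝ) x y z h)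
      have h4 : (c12 (Pi.single i 1 : IH L → ℝ) x y z h -
          σ * c12 (Pi.single j 1 : IH L → ℝ) x y z h) ^ 2 =
        c12 (Pi.single i 1 : IH L → ℝ) x y z h ^ 2 + σ ^ 2 * c12 (Pi.single j 1 : IH L → ℝ) x y z h ^ 2
          - 2 * (σ * (c12 (Pi.single i 1 : IH L → ℝ) x y z h *
        c12 (Pi.single j 1 : IH L → ℝ) x y z h)) := by ring
      rw [h4, hs] at h3
      linarith
    rw [s12_add, s12_mul L (1 / 2), s12_mul L (1 / 2)] at h2
    have h5 := diag_le i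
    have h6 := diag_le j
    linarith
  rw [abs_le]
  have h2 := h1 1 (Or.inl rfl)
  have h3 := h1 (-1) (Or.inr rfl)
  constructor <;> linarith

/-! ### assembly -/

theorem hf_real {L : ℕ} (h : hC L 0 = cx (mA L)) (f : IH L → ℝ) :
    hf (fun i => ((f i : ℝ) : ℂ)) (hC L 0) (fun i => ((f i : ℝ) : ℂ)) = qd (mA L) f := by
  unfold hf qd
  rw [h, Complex.re_sum]
  refine Finset.sum_congr rfl fun i _ => ?_
  rw [Complex.re_sum]
  refine Finset.sum_congr rfl fun j _ => ?_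
  have e : star ((f i : ℝ) : ℂ) * cx (mA L) i j * ((f j : ℝ) : ℂ) =
      ((mA L i j * f i * f j : ℝ) : ℂ) := by
    have e1 : star ((f i : ℝ) : ℂ) = ((f i : ℝ) : ℂ) := Complex.conj_ofReal _
    have e2 : cx (mA L) i j = ((mA L i j : ℝ) : ℂ) := rfl
    rw [e1, e2]
    push_cast
    ring
  rw [e, Complex.ofReal_re]

theorem card_le (L : ℕ) (hL : 2 ≤ L) : (Fintype.card (IH L) : ℝ) ≤ 3 * (L : ℝ) ^ 4 := by
  have h1 : Fintype.card (IH L) ≤ 3 * L ^ 4 := by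
    simp only [Fintype.card_sum, Fintype.card_prod, Fintype.card_fin]
    have h2 : L - 1 ≤ L := Nat.sub_le _ _
    have h3 : L * ((L - 1) * ((L - 1) * L)) ≤ L * (L * (L * L)) := by gcongr
    have h4 : (L - 1) * (L * ((L - 1) * L)) ≤ L * (L * (L * L)) := by gcongr
    have h5 : (L - 1) * ((L - 1) * (L * L)) ≤ L * (L * (L * L)) := by gcongr
    have h6 : L * (L * (L * L)) = L ^ 4 := by ring
    omega
  exact_mod_cast h1

/-- **Task AF-AI** -/
theorem tai (hQF : S_QF) (hHR : S_HR) : S_AI := by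
  intro L hL
  obtain ⟨C, hC⟩ := hHR
  obtain ⟨h0, hs, -⟩ := hC L hL
  have hL0 : (0 : ℝ) < (L : ℝ) ^ 2 := by
    have : (0 : ℝ) < L := by exact_mod_cast (by omega : 0 < L)
    positivity
  have key : ∀ f : IH L → ℝ,
      s12 L (fun x y z h => c12 f x y z h ^ 2) + vp f ≤ qd (mA L) f := by
    intro f
    have h1 := qf_ge f
    rw [hQF L hL 0, hf_real h0] at h1
    linarith
  have hKA : ∀ f : IH L → ℝ, ∑ i, f i ^ 2 ≤ (L : ℝ) ^ 2 * qd (mA L) f := by
    intro f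
    have h1 := vp_ge f
    have h2 := key f
    have h3 := s12_nonneg L (fun x y z h => c12 f x y z h ^ 2) fun _ _ _ _ => sq_nonneg _
    have h4 : (L : ℝ) ^ 2 * vp f ≤ (L : ℝ) ^ 2 * qd (mA L) f :=
      mul_le_mul_of_nonneg_left (by linarith) hL0.le
    linarith
  have hPD : (mA L).PosDef := posDef_of hs hL0 hKA
  have hR : (mR L).PosSemidef := posSemi_of (mR_symm L) fun f => by
    rw [← qd_mR]
    exact s12_nonneg L _ fun _ _ _ _ => sq_nonneg _
  have hS : (mA L - mR L).PosSemidef := by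
    refine posSemi_of (hs.sub (mR_symm L)) fun f => ?_
    have e : qd (mA L - mR L) f = qd (mA L) f - qd (mR L) f := by
      unfold qd
      simp only [Matrix.sub_apply, sub_mul, Finset.sum_sub_distrib]
    rw [e, ← qd_mR]
    have h1 := key f
    have h2 := vp_nonneg f
    linarith
  have hI : (mA L)⁻¹.PosSemidef := hPD.inv.posSemidef
  have hdet : IsUnit (mA L).det := (Matrix.isUnit_iff_isUnit_det _).1 hPD.isUnit
  refine ⟨hPD, inv_le hPD hL0 hKA, trace_mul_nonneg hI hR, ?_, fun i j => (mR_le i j).trans (by norm_num),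
    fun f => qd_mR f⟩
  have h1 := trace_mul_nonneg hI hS
  rw [Matrix.mul_sub, Matrix.trace_sub, Matrix.nonsing_inv_mul _ hdet, Matrix.trace_one] at h1
  have h2 := card_le L hL
  linarith

end Pool.Agent.H808.AF
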